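import Mathlib

/-!
# Designs, defining sets and the planes of `AG(3,2)`
-/

namespace Pool.Agent.N472.Hole

/-- A (simple) `t`-`(v,k,lam)` design on the point set `Fin v`. -/
def IsDesign (t v k lam : ℕ) (B : Finset (Finset (Fin v))) : Prop :=
  (∀ b ∈ B, b.card = k) ∧
    ∀ T : Finset (Fin v), T.card = t → (B.filter (fun b => T ⊆ b)).card = lam

/-- `S` is a defining set of the design `D`. -/
def IsDefining (t v k lam : ℕ) (D S : Finset (Finset (Fin v))) : Prop :=
  S ⊆ D ∧ ∀ D' : Finset (Finset (Fin v)), IsDesign t v k lam D' → S ⊆ D' → D' = D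

/-- `S` is a minimal defining set of the design `D`. -/
def IsMinimalDefining (t v k lam : ℕ) (D S : Finset (Finset (Fin v))) : Prop :=
  IsDefining t v k lam D S ∧ ∀ S' : Finset (Finset (Fin v)), S' ⊂ S → ¬ IsDefining t v k lam D S'

/-- The set of sizes of the minimal defining sets of `D`. -/
def Spec (t v k lam : ℕ) (D : Finset (Finset (Fin v))) : Set ℕ :=
  {m | ∃ S, IsMinimalDefining t v k lam D S ∧ S.card = m}

/-- The 14 planes of `AG(3,2)`, the points being numbered `0, …, 7` by their binary digits. -/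
def planes : Finset (Finset (Fin 8)) :=
  {{0,1,2,3}, {0,1,4,5}, {2,3,4,5}, {0,2,4,6}, {1,3,4,6}, {1,2,5,6}, {0,3,5,6},
   {1,2,4,7}, {0,3,4,7}, {0,2,5,7}, {1,3,5,7}, {0,1,6,7}, {2,3,6,7}, {4,5,6,7}}

end Pool.Agent.N472.Hole
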