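import Pool.Agent.N472.Hole.Defs

/-!
# The spectrum of the 2-(8,4,3) design of the planes of `AG(3,2)`
-/

namespace Pool.Agent.N472.Hole

/-! ## Masks -/

/-- The subset of `Fin 8` with mask `m`. -/
def toSet (m : ℕ) : Finset (Fin 8) := Finset.univ.filter (fun i : Fin 8 => m.testBit i = true)

/-- `p` is a submask of `m`. -/
def sub (p m : ℕ) : Bool := Nat.beq (Nat.land m p) p

/-- The masks with four binary digits one. -/
def blocks : List ℕ :=
  [15, 23, 27, 29, 30, 39, 43, 45, 46, 51, 53, 54, 57, 58, 60, 71, 75, 77, 78, 83, 85, 86, 89, 90,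
   92, 99, 101, 102, 105, 106, 108, 113, 114, 116, 120, 135, 139, 141, 142, 147, 149, 150, 153,
   154, 156, 163, 165, 166, 169, 170, 172, 177, 178, 180, 184, 195, 197, 198, 201, 202, 204, 209,
   210, 212, 216, 225, 226, 228, 232, 240]

/-- The masks with two binary digits one. -/
def pairs : List ℕ :=
  [3, 5, 6, 9, 10, 12, 17, 18, 20, 24, 33, 34, 36, 40, 48, 65, 66, 68, 72, 80, 96, 129, 130, 132,
   136, 144, 160, 192]

/-- The masks of the planes. -/
def Dm : List ℕ := [15, 51, 60, 85, 90, 102, 105, 150, 153, 165, 170, 195, 204, 240]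

lemma exists_mask (B : Finset (Fin 8)) : ∃ m < 256, toSet m = B := by
  refine ⟨Nat.ofBits (fun i : Fin 8 => decide (i ∈ B)), ?_, ?_⟩
  · exact Nat.ofBits_lt_two_pow _
  · ext i
    simp only [toSet, Finset.mem_filter, Finset.mem_univ, true_and]
    rw [Nat.testBit_ofBits_lt _ _ i.2]
    simp

lemma toSet_inj {m m' : ℕ} (hm : m < 256) (hm' : m' < 256) (h : toSet m = toSet m') : m = m' := by
  apply Nat.eq_of_testBit_eq
  intro i
  by_cases hi : i < 8
  · have h1 : (⟨i, hi⟩ : Fin 8) ∈ toSet m ↔ (⟨i, hi⟩ : Fin 8) ∈ toSet m' := by rw [h]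
    simp only [toSet, Finset.mem_filter, Finset.mem_univ, true_and] at h1
    exact Bool.eq_iff_iff.2 h1
  · have h2 : (256 : ℕ) ≤ 2 ^ i := by
      calc (256 : ℕ) = 2 ^ 8 := by norm_num
        _ ≤ 2 ^ i := Nat.pow_le_pow_right (by norm_num) (by omega)
    rw [Nat.testBit_lt_two_pow (lt_of_lt_of_le hm h2), Nat.testBit_lt_two_pow (lt_of_lt_of_le hm' h2)]

lemma toSet_subset {p m : ℕ} (hp : p < 256) : toSet p ⊆ toSet m ↔ sub p m = true := by
  have hsub : sub p m = true ↔ m &&& p = p := by
    unfold sub
    constructor
    · exact fun h => Nat.eq_of_beq_eq_true h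
    · intro h
      change Nat.beq (m &&& p) p = true
      rw [h]
      exact Nat.beq_refl p
  rw [hsub]
  constructor
  · intro h
    apply Nat.eq_of_testBit_eq
    intro i
    rw [Nat.testBit_and]
    by_cases hi : i < 8
    · cases hpi : p.testBit i
      · simp
      · have h1 : (⟨i, hi⟩ : Fin 8) ∈ toSet p := by simp [toSet, hpi]
        have h2 := h h1
        simp only [toSet, Finset.mem_filter, Finset.mem_univ, true_and] at h2
        simp [h2]
    · have h2 : (256 : ℕ) ≤ 2 ^ i := by
        calc (256 : ℕ) = 2 ^ 8 := by norm_num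
          _ ≤ 2 ^ i := Nat.pow_le_pow_right (by norm_num) (by omega)
      rw [Nat.testBit_lt_two_pow (lt_of_lt_of_le hp h2)]
      simp
  · intro h i hi
    simp only [toSet, Finset.mem_filter, Finset.mem_univ, true_and] at hi ⊢
    rw [← h, Nat.testBit_and] at hi
    simp only [Bool.and_eq_true] at hi
    exact hi.1

lemma card_toSet_four : ∀ m < 256, (toSet m).card = 4 → m ∈ blocks := by
  decide +kernel

lemma card_toSet_two : ∀ m < 256, (toSet m).card = 2 → m ∈ pairs := by
  decide +kernel

lemma blocks_lt : ∀ m ∈ blocks, m < 256 := by decide +kernel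

lemma pairs_lt : ∀ m ∈ pairs, m < 256 := by decide +kernel

lemma blocks_card : ∀ m ∈ blocks, (toSet m).card = 4 := by decide +kernel

lemma pairs_card : ∀ m ∈ pairs, (toSet m).card = 2 := by decide +kernel

lemma blocks_nodup : blocks.Nodup := by decide +kernel

lemma planes_eq : planes = (Dm.map toSet).toFinset := by decide +kernel

/-- Number of masks in `L` containing `p`. -/
def tot (L : List ℕ) (p : ℕ) : ℕ := L.countP (sub p)

/-- The block set with masks in `L`. -/
def ofList (L : List ℕ) : Finset (Finset (Fin 8)) := (L.map toSet).toFinset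

lemma mem_ofList {L : List ℕ} {b : Finset (Fin 8)} : b ∈ ofList L ↔ ∃ m ∈ L, toSet m = b := by
  simp [ofList]

lemma card_filter_ofList {L : List ℕ} (hnd : L.Nodup) (hlt : ∀ m ∈ L, m < 256) {p : ℕ}
    (hp : p < 256) : ((ofList L).filter (fun b => toSet p ⊆ b)).card = tot L p := by
  have h1 : (ofList L).filter (fun b => toSet p ⊆ b) = ofList (L.filter (sub p)) := by
    ext b
    simp only [Finset.mem_filter, mem_ofList, List.mem_filter]
    constructor
    · rintro ⟨⟨m, hm, rfl⟩, h⟩
      exact ⟨m, ⟨hm, (toSet_subset hp).1 h⟩, rfl⟩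
    · rintro ⟨m, ⟨hm, h⟩, rfl⟩
      exact ⟨⟨m, hm, rfl⟩, (toSet_subset hp).2 h⟩
  rw [h1, ofList, List.toFinset_card_of_nodup, List.length_map, tot, List.countP_eq_length_filter]
  refine List.Nodup.map_on ?_ (hnd.filter _)
  intro a ha b hb h
  exact toSet_inj (hlt a (List.mem_filter.1 ha).1) (hlt b (List.mem_filter.1 hb).1) h

/-- Membership of the block with mask `m`, as a Boolean. -/
noncomputable def mem (D' : Finset (Finset (Fin 8))) (m : ℕ) : Bool := decide (toSet m ∈ D')

lemma eq_ofList {D' : Finset (Finset (Fin 8))} (h : ∀ b ∈ D', b.card = 4) :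
    D' = ofList (blocks.filter (mem D')) := by
  ext b
  rw [mem_ofList]
  constructor
  · intro hb
    obtain ⟨m, hm, rfl⟩ := exists_mask b
    refine ⟨m, List.mem_filter.2 ⟨card_toSet_four m hm (h _ hb), ?_⟩, rfl⟩
    simp [mem, hb]
  · rintro ⟨m, hm, rfl⟩
    have := (List.mem_filter.1 hm).2
    simpa [mem] using this

lemma design_tot {D' : Finset (Finset (Fin 8))} (h : IsDesign 2 8 4 3 D') {p : ℕ}
    (hp : p ∈ pairs) : tot (blocks.filter (mem D')) p = 3 := by
  have h1 := h.2 (toSet p) (pairs_card p hp)
  rw [eq_ofList h.1, card_filter_ofList (blocks_nodup.filter _)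
    (fun m hm => blocks_lt m (List.mem_filter.1 hm).1) (pairs_lt p hp)] at h1
  exact h1

/-- Boolean check that a list of masks is a design. -/
def chkDesign (L : List ℕ) : Bool :=
  L.all (fun m => blocks.contains m) && pairs.all (fun p => tot L p == 3) && decide L.Nodup

lemma isDesign_of_chk {L : List ℕ} (h : chkDesign L = true) : IsDesign 2 8 4 3 (ofList L) := by
  simp only [chkDesign, Bool.and_eq_true, List.all_eq_true, decide_eq_true_eq] at h
  obtain ⟨⟨h1, h2⟩, h3⟩ := h
  have h1' : ∀ m ∈ L, m ∈ blocks := fun m hm => by simpa using h1 m hm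
  refine ⟨?_, ?_⟩
  · intro b hb
    obtain ⟨m, hm, rfl⟩ := mem_ofList.1 hb
    exact blocks_card m (h1' m hm)
  · intro T hT
    obtain ⟨p, hp, rfl⟩ := exists_mask T
    have hpp := card_toSet_two p hp hT
    rw [card_filter_ofList h3 (fun m hm => blocks_lt m (h1' m hm)) hp]
    simpa using h2 p hpp

/-! ## The weight argument: a pair of complementary blocks is balanced -/

/-- `2` if both points of the pair `p` are on the same side of `B`, otherwise `-1`. -/
def c (B p : ℕ) : ℤ :=
  match Nat.beq (Nat.land p B) p || Nat.beq (Nat.land p B) 0 with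
  | true => 2
  | false => -1

/-- Sum of `c B p` over the pairs `p` in the block `m`. -/
def w (B m : ℕ) : ℤ := (pairs.map (fun p => if sub p m then c B p else 0)).sum

lemma sum_w (B : ℕ) (L : List ℕ) :
    (L.map (w B)).sum = (pairs.map (fun p => c B p * (tot L p : ℤ))).sum := by
  induction L with
  | nil => simp [tot]
  | cons m L ih =>
    rw [List.map_cons, List.sum_cons, ih, w, ← List.sum_map_add]
    congr 1
    apply List.map_congr_left
    intro p _
    by_cases h : sub p m = true
    · simp only [h, if_true, tot, List.countP_cons_of_pos]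
      push_cast
      ring
    · simp [h, tot]

lemma w_nonneg : ∀ B ∈ Dm, ∀ m ∈ blocks, 0 ≤ w B m := by decide +kernel

lemma w_self : ∀ B ∈ Dm, w B B = 12 ∧ w B (255 - B) = 12 ∧ B ≠ 255 - B ∧ (255 - B) ∈ blocks ∧
    B ∈ blocks := by
  decide +kernel

lemma c_sum : ∀ B ∈ Dm, (pairs.map (fun p => c B p * 3)).sum = 24 := by decide +kernel

lemma balanced {x : ℕ → Bool} (hx : ∀ p ∈ pairs, tot (blocks.filter x) p = 3) {B : ℕ}
    (hB : B ∈ Dm) (h1 : x B = true) (h2 : x (255 - B) = true) {m : ℕ} (hm : m ∈ blocks)
    (hxm : x m = true) (hmB : m ≠ B) (hmB' : m ≠ 255 - B) : w B m = 0 := by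
  have hs : ((blocks.filter x).map (w B)).sum = 24 := by
    rw [sum_w, ← c_sum B hB]
    congr 1
    apply List.map_congr_left
    intro p hp
    rw [hx p hp]
    norm_num
  have hnd : (blocks.filter x).Nodup := blocks_nodup.filter _
  have hs2 : ∑ y ∈ (blocks.filter x).toFinset, w B y = 24 := by
    rw [← hs, List.sum_toFinset _ hnd]
  obtain ⟨w1, w2, hne, hb2, hb1⟩ := w_self B hB
  have hsub : ({B, 255 - B, m} : Finset ℕ) ⊆ (blocks.filter x).toFinset := by
    intro y hy
    simp only [Finset.mem_insert, Finset.mem_singleton] at hy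
    rw [List.mem_toFinset, List.mem_filter]
    rcases hy with rfl | rfl | rfl
    · exact ⟨hb1, h1⟩
    · exact ⟨hb2, h2⟩
    · exact ⟨hm, hxm⟩
  have hle : ∑ y ∈ ({B, 255 - B, m} : Finset ℕ), w B y ≤ 24 := by
    rw [← hs2]
    refine Finset.sum_le_sum_of_subset_of_nonneg hsub ?_
    intro y hy _
    exact w_nonneg B hB y (List.mem_filter.1 (List.mem_toFinset.1 hy)).1
  rw [Finset.sum_insert, Finset.sum_insert, Finset.sum_singleton, w1, w2] at hle
  · have := w_nonneg B hB m hm
    omega
  · simp only [Finset.mem_singleton]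
    exact fun h => hmB' h.symm
  · simp only [Finset.mem_insert, Finset.mem_singleton, not_or]
    exact ⟨hne, fun h => hmB h.symm⟩

/-! ## A verified search -/

/-- Membership in a list of natural numbers. -/
def memN (m : ℕ) : List ℕ → Bool
  | [] => false
  | a :: l => Nat.beq m a || memN m l

lemma memN_iff {m : ℕ} {l : List ℕ} : memN m l = true ↔ m ∈ l := by
  induction l with
  | nil => simp [memN]
  | cons a l ih =>
    rw [memN, Bool.or_eq_true, ih, List.mem_cons]
    constructor
    · rintro (h | h)
      · exact Or.inl (Nat.eq_of_beq_eq_true h)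
      · exact Or.inr h
    · rintro (rfl | h)
      · exact Or.inl (Nat.beq_refl m)
      · exact Or.inr h

/-- The number with base-32 digits `f p`, `p` in the list. -/
def wsum (f : ℕ → ℕ) : List ℕ → ℕ
  | [] => 0
  | p :: l => f p + 32 * wsum f l

lemma wsum_add (f g : ℕ → ℕ) (l : List ℕ) : wsum (fun p => f p + g p) l = wsum f l + wsum g l := by
  induction l with
  | nil => rfl
  | cons p l ih => simp only [wsum, ih]; ring

lemma wsum_congr {f g : ℕ → ℕ} {l : List ℕ} (h : ∀ p ∈ l, f p = g p) : wsum f l = wsum g l := by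
  induction l with
  | nil => rfl
  | cons p l ih =>
    simp only [wsum]
    rw [h p (by simp), ih fun q hq => h q (by simp [hq])]

/-- The incidence vector of the mask `m` with the pairs, packed in a number. -/
def Wf (m : ℕ) : ℕ := wsum (fun p => if sub p m then 1 else 0) pairs

/-- The 70 blocks together with their packed incidence vectors. -/
def tab : List (ℕ × ℕ) :=
  [(240, 44959807730736259167764323197933261422592),
   (232, 44918601662828550633342760257972705689600),
   (228, 44917313973206434741642086416098938322944),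
   (226, 44917273732905743620026440358540383092736),
   (225, 44917272475396347022475951419241678241792),
   (216, 43600007489781877568414192968511625625600),
   (212, 43598719800159761676749259659195810054144),
   (210, 43598679559859070555134730493279690817536),
   (209, 43598678302349673957584276456844812091392),
   (204, 43557513732252053143471394850705768448000),
   (202, 43557473491951362021856865685854768594944),
   (201, 43557472234441965424306411649453174849536),
   (198, 43556185802329246130191932410623812436992),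
   (197, 43556184544819849532641478374222219706400),
   (195, 43556144304519158411026949209371252359169),
   (184, 1404993991544656078876809206765526712320),
   (180, 1403706301923739441589193042948207411200),
   (178, 1403666061623085796673955037828916183040),
   (177, 1403664804113690370270353850168938332160),
   (172, 1362500234054407048385476890410046455808),
   (170, 1362459993753753403470238886355874611200),
   (169, 1362458736244357977066637698729181741056),
   (166, 1361172304132836766182622756623414723584),
   (165, 1361171046623441339779021568996722868256),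
   (163, 1361130806322787694863783564942583529473),
   (156, 43906062235770502426853913243802402816),
   (154, 43865821935116857512732800832066551808),
   (153, 43864564425721431109166516069199806464),
   (150, 42578132314200220260857203657558459392),
   (149, 42576874804804793857290918894692728864),
   (147, 42536634504151148943169806482989383681),
   (142, 1372064444867828200839183655031014400),
   (141, 1370806935472401797272898925450264608),
   (139, 1330566634818756883151787578866302977),
   (135, 42877013902119631276224489218638881),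
   (120, 1308502622742132094617576800256),
   (116, 1307303368293333781748595556352),
   (114, 1307265891591808834471439892480),
   (113, 1307264720444886179869028777984),
   (108, 1268927225931788859557252431872),
   (106, 1268889749230263913345216151552),
   (105, 1268888578083341258776090017792),
   (102, 1267690494781465634561094321152),
   (101, 1267689323634542979991969202208),
   (99, 1267651846933018033779965427713),
   (92, 40890706922645253489178968064),
   (90, 40853230222237198919578681344),
   (89, 40852059075349447214278672384),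
   (86, 39653975809179452693408646144),
   (85, 39652804662291700988109652000),
   (83, 39615327961883646418541871105),
   (78, 1277834591332663037699032064),
   (77, 1276663444444911365685018656),
   (75, 1239186744036857861236621313),
   (71, 39932330979145719927014433),
   (60, 1218638066653354524672),
   (58, 1217521172880582246400),
   (57, 1217486269950183112704),
   (54, 1181780572152908481536),
   (53, 1181745669222510362656),
   (51, 1180628775449770590209),
   (46, 38082438449079518208),
   (45, 38047535551966380064),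
   (43, 36930642844345991169),
   (39, 1190076201532654625),
   (30, 36318278059008),
   (29, 36284991045664),
   (27, 35219806650369),
   (23, 1134945109025),
   (15, 34636833)]

lemma tab_fst : (tab.map Prod.fst).reverse = blocks := by decide +kernel

lemma tab_snd : ∀ e ∈ tab, e.2 = Wf e.1 := by decide +kernel

/-- The sum of the packed vectors of the blocks selected by `x`. -/
def sumx (x : ℕ → Bool) : List (ℕ × ℕ) → ℕ
  | [] => 0
  | e :: l => (if x e.1 then e.2 else 0) + sumx x l

/-- The sum of all second components. -/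
def sumU : List (ℕ × ℕ) → ℕ
  | [] => 0
  | e :: l => e.2 + sumU l

lemma sumx_le (x : ℕ → Bool) (l : List (ℕ × ℕ)) : sumx x l ≤ sumU l := by
  induction l with
  | nil => exact le_rfl
  | cons e l ih =>
    simp only [sumx, sumU]
    split_ifs <;> omega

lemma sumx_eq (x : ℕ → Bool) (l : List (ℕ × ℕ)) (hl : ∀ e ∈ l, e.2 = Wf e.1) :
    sumx x l = wsum (tot ((l.map Prod.fst).filter x)) pairs := by
  induction l with
  | nil =>
    simp only [sumx, List.map_nil, List.filter_nil]
    have : ∀ l : List ℕ, wsum (tot []) l = 0 := by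
      intro l
      induction l with
      | nil => rfl
      | cons p l ih => simp [wsum, ih, tot]
    exact (this _).symm
  | cons e l ih =>
    have ih' := ih fun e' he' => hl e' (by simp [he'])
    simp only [sumx, List.map_cons]
    rw [ih']
    by_cases hx : x e.1 = true
    · rw [if_pos hx, List.filter_cons_of_pos hx, hl e (by simp), Wf, ← wsum_add]
      apply wsum_congr
      intro p _
      by_cases hs : sub p e.1 = true
      · simp only [hs, if_true, tot, List.countP_cons_of_pos]
        ring
      · simp [hs, tot]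
    · rw [if_neg hx, List.filter_cons_of_neg hx, zero_add]

/-- `srch d L R U dev = true` implies that every choice `x` on `L` with packed sum `R`
agrees with `d` on `L`, and that `dev = false`. -/
def srch (d : ℕ → Bool) : List (ℕ × ℕ) → ℕ → ℕ → Bool → Bool
  | [], R, _, dev => !dev || !(Nat.beq R 0)
  | e :: L, R, U, dev =>
    (!(Nat.ble e.2 R) || !(Nat.ble (Nat.sub R e.2) (Nat.sub U e.2)) ||
      srch d L (Nat.sub R e.2) (Nat.sub U e.2) (dev || !(d e.1))) &&
    (!(Nat.ble R (Nat.sub U e.2)) || srch d L R (Nat.sub U e.2) (dev || d e.1))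

lemma srch_sound (d x : ℕ → Bool) (L : List (ℕ × ℕ)) : ∀ (R U : ℕ) (dev : Bool),
    R = sumx x L → U = sumU L → srch d L R U dev = true →
      dev = false ∧ ∀ e ∈ L, x e.1 = d e.1 := by
  induction L with
  | nil =>
    intro R U dev hR _ h
    subst hR
    simp only [srch, sumx, Nat.beq_refl, Bool.not_true, Bool.or_false, Bool.not_eq_true'] at h
    exact ⟨h, by simp⟩
  | cons e L ih =>
    intro R U dev hR hU h
    have hle := sumx_le x L
    have hU' : Nat.sub U e.2 = sumU L := by
      rw [hU, sumU]
      change e.2 + sumU L - e.2 = sumU L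
      omega
    simp only [srch, Bool.and_eq_true] at h
    obtain ⟨ha, hb⟩ := h
    cases hx : x e.1
    · have hR' : R = sumx x L := by
        rw [hR, sumx, hx]
        simp
      have h1 : Nat.ble R (Nat.sub U e.2) = true := by
        rw [hU', hR', Nat.ble_eq]
        exact hle
      rw [h1] at hb
      simp only [Bool.not_true, Bool.false_or] at hb
      obtain ⟨h2, h3⟩ := ih _ _ _ hR' hU' hb
      rw [Bool.or_eq_false_iff] at h2
      refine ⟨h2.1, ?_⟩
      intro y hy
      rcases List.mem_cons.1 hy with rfl | hy
      · rw [hx, h2.2]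
      · exact h3 y hy
    · have hR' : Nat.sub R e.2 = sumx x L := by
        rw [hR, sumx, hx]
        change (if true = true then e.2 else 0) + sumx x L - e.2 = sumx x L
        simp
      have h0 : Nat.ble e.2 R = true := by
        rw [Nat.ble_eq, hR, sumx, hx]
        simp
      have h1 : Nat.ble (Nat.sub R e.2) (Nat.sub U e.2) = true := by
        rw [hU', hR', Nat.ble_eq]
        exact hle
      rw [h0, h1] at ha
      simp only [Bool.not_true, Bool.false_or] at ha
      obtain ⟨h2, h3⟩ := ih _ _ _ hR' hU' ha
      simp only [Bool.or_eq_false_iff, Bool.not_eq_false'] at h2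
      refine ⟨h2.1, ?_⟩
      intro y hy
      rcases List.mem_cons.1 hy with rfl | hy
      · rw [hx, h2.2]
      · exact h3 y hy

/-- Number of binary digits one of a number below `256` (last step). -/
def pc3 (v : ℕ) : ℕ := Nat.land (Nat.add v (Nat.shiftRight v 4)) 15

/-- Number of binary digits one of a number below `256` (middle step). -/
def pc2 (v : ℕ) : ℕ := pc3 (Nat.add (Nat.land v 51) (Nat.land (Nat.shiftRight v 2) 51))

/-- Number of binary digits one of a number below `256`. -/
def pc1 (v : ℕ) : ℕ := pc2 (Nat.sub v (Nat.land (Nat.shiftRight v 1) 85))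

/-- The blocks with masks `B` and `m` have exactly two points in common. -/
def bal (m B : ℕ) : Bool := Nat.beq (pc1 (Nat.land m B)) 2

lemma bal_of_w : ∀ B ∈ Dm, ∀ m ∈ blocks, w B m = 0 → bal m B = true := by decide +kernel

/-- The masks of the planes selected by the mask `s`. -/
def sel (s : ℕ) : List ℕ := ((List.range 14).filter (fun i => s.testBit i)).map (fun i => Dm.getD i 0)

/-- The planes in `sel s` whose complement is in `sel s` as well. -/
def full (s : ℕ) : List ℕ := (sel s).filter (fun B => memN (Nat.sub 255 B) (sel s))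

/-- The check that the planes in `F` form a defining set, `G` being the planes in `F` whose
complement is in `F`. -/
def chkDef2 (F G : List ℕ) : Bool :=
  (tab.filter (fun e => !(memN e.1 F) && !(G.all (bal e.1)))).all (fun e => !(memN e.1 Dm)) &&
  srch (fun m => memN m Dm) (tab.filter (fun e => !(memN e.1 F) && G.all (bal e.1)))
    (Nat.sub (wsum (fun _ => 3) pairs) (sumU (tab.filter (fun e => memN e.1 F))))
    (sumU (tab.filter (fun e => !(memN e.1 F) && G.all (bal e.1)))) false

/-- The check that the planes selected by `s` form a defining set. -/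
def chkDef (s : ℕ) : Bool := chkDef2 (sel s) (full s)

lemma sumx_split (x : ℕ → Bool) (a b : ℕ × ℕ → Bool) (l : List (ℕ × ℕ)) :
    sumx x l = sumx x (l.filter a) + (sumx x (l.filter (fun e => !(a e) && b e)) +
      sumx x (l.filter (fun e => !(a e) && !(b e)))) := by
  induction l with
  | nil => rfl
  | cons e l ih =>
    simp only [List.filter_cons]
    cases a e <;> cases b e <;> simp only [sumx, Bool.not_true, Bool.not_false, Bool.and_true,
      Bool.and_false, if_true, if_false, Bool.false_eq_true] <;> omega

lemma sumx_true {x : ℕ → Bool} {l : List (ℕ × ℕ)} (h : ∀ e ∈ l, x e.1 = true) :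
    sumx x l = sumU l := by
  induction l with
  | nil => rfl
  | cons e l ih =>
    simp only [sumx, sumU]
    rw [if_pos (h e (by simp)), ih fun e' he' => h e' (by simp [he'])]

lemma sumx_false {x : ℕ → Bool} {l : List (ℕ × ℕ)} (h : ∀ e ∈ l, x e.1 = false) :
    sumx x l = 0 := by
  induction l with
  | nil => rfl
  | cons e l ih =>
    simp only [sumx]
    rw [h e (by simp), ih fun e' he' => h e' (by simp [he'])]
    simp

lemma planes_eq' : planes = ofList Dm := planes_eq

lemma Dm_blocks : ∀ m ∈ Dm, m ∈ blocks := by decide +kernel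

lemma mem_tab {m : ℕ} (hm : m ∈ blocks) : ∃ e ∈ tab, e.1 = m := by
  rw [← tab_fst, List.mem_reverse, List.mem_map] at hm
  exact hm

lemma tab_mem {e : ℕ × ℕ} (he : e ∈ tab) : e.1 ∈ blocks := by
  rw [← tab_fst, List.mem_reverse, List.mem_map]
  exact ⟨e, he, rfl⟩

lemma sel_blocks : ∀ s m, m ∈ sel s → m ∈ Dm := by
  intro s m hm
  rw [sel, List.mem_map] at hm
  obtain ⟨i, hi, rfl⟩ := hm
  have hi' : i < Dm.length := List.mem_range.1 (List.mem_filter.1 hi).1
  rw [List.getD_eq_getElem _ _ hi']
  exact List.getElem_mem hi'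

lemma defining_of_chk {s : ℕ} (h : chkDef s = true) :
    IsDefining 2 8 4 3 planes (ofList (sel s)) := by
  simp only [chkDef, chkDef2, Bool.and_eq_true] at h
  obtain ⟨hex, hsrch⟩ := h
  refine ⟨?_, ?_⟩
  · intro b hb
    obtain ⟨m, hm, rfl⟩ := mem_ofList.1 hb
    rw [planes_eq']
    exact mem_ofList.2 ⟨m, sel_blocks s m hm, rfl⟩
  · intro D' hD' hS
    have hx := fun p hp => design_tot hD' (p := p) hp
    set x : ℕ → Bool := mem D' with hxdef
    have hsel : ∀ m ∈ sel s, x m = true := by
      intro m hm
      have : toSet m ∈ D' := hS (mem_ofList.2 ⟨m, hm, rfl⟩)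
      simp [hxdef, mem, this]
    have hexcl : ∀ e ∈ tab.filter (fun e => !(memN e.1 (sel s)) && !((full s).all (bal e.1))),
        x e.1 = false := by
      intro e he
      by_contra hne
      have hxm : x e.1 = true := by simpa using hne
      rw [List.mem_filter] at he
      obtain ⟨hmb, hm2⟩ := he
      simp only [Bool.and_eq_true, Bool.not_eq_true'] at hm2
      obtain ⟨hm3, hm4⟩ := hm2
      have hm3' : e.1 ∉ sel s := by
        rw [← memN_iff, hm3]
        simp
      have : (full s).all (bal e.1) = true := by
        rw [List.all_eq_true]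
        intro B hB
        rw [full, List.mem_filter] at hB
        obtain ⟨hB1, hB2⟩ := hB
        have hB2' : 255 - B ∈ sel s := memN_iff.1 hB2
        exact bal_of_w B (sel_blocks s B hB1) e.1 (tab_mem hmb)
          (balanced hx (sel_blocks s B hB1) (hsel B hB1) (hsel _ hB2') (tab_mem hmb) hxm
          (fun h => hm3' (h ▸ hB1)) (fun h => hm3' (h ▸ hB2')))
      rw [this] at hm4
      exact absurd hm4 (by simp)
    have htab : sumx x tab = wsum (fun _ => 3) pairs := by
      rw [sumx_eq x tab tab_snd]
      apply wsum_congr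
      intro p hp
      rw [← hx p hp, tot, tot, ← tab_fst, List.filter_reverse, List.countP_reverse]
    have hF : ∀ e ∈ tab.filter (fun e => memN e.1 (sel s)), x e.1 = true := by
      intro e he
      exact hsel _ (memN_iff.1 (List.mem_filter.1 he).2)
    have hsplit := sumx_split x (fun e => memN e.1 (sel s)) (fun e => (full s).all (bal e.1)) tab
    rw [htab, sumx_true hF, sumx_false hexcl] at hsplit
    have hR : Nat.sub (wsum (fun _ => 3) pairs) (sumU (tab.filter (fun e => memN e.1 (sel s)))) =
        sumx x (tab.filter (fun e => !(memN e.1 (sel s)) && (full s).all (bal e.1))) := by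
      change wsum (fun _ => 3) pairs - (sumU (tab.filter (fun e => memN e.1 (sel s)))) = _
      omega
    obtain ⟨_, hc⟩ := srch_sound _ x _ _ _ _ hR rfl hsrch
    have hall : ∀ m ∈ blocks, x m = memN m Dm := by
      intro m hm
      obtain ⟨e, he, rfl⟩ := mem_tab hm
      cases h1 : memN e.1 (sel s)
      · cases h2 : (full s).all (bal e.1)
        · have he' : e ∈ tab.filter
              (fun e => !(memN e.1 (sel s)) && !((full s).all (bal e.1))) := by
            rw [List.mem_filter]
            exact ⟨he, by simp [h1, h2]⟩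
          rw [hexcl e he']
          have := (List.all_eq_true.1 hex) e he'
          simpa using this
        · exact hc e (List.mem_filter.2 ⟨he, by simp [h1, h2]⟩)
      · have h3 := memN_iff.1 h1
        rw [hsel _ h3, memN_iff.2 (sel_blocks _ _ h3)]
    rw [eq_ofList hD'.1, planes_eq']
    ext b
    simp only [mem_ofList, List.mem_filter]
    constructor
    · rintro ⟨m, ⟨hm, hxm⟩, rfl⟩
      have := hall m hm
      rw [← hxdef, this] at hxm
      exact ⟨m, memN_iff.1 hxm, rfl⟩
    · rintro ⟨m, hm, rfl⟩
      refine ⟨m, ⟨Dm_blocks m hm, ?_⟩, rfl⟩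
      rw [← hxdef, hall m (Dm_blocks m hm)]
      exact memN_iff.2 hm

/-! ## The certificate -/

/-- Pairs consisting of the mask of a set of planes and another design that contains all
the other planes. -/
def altData : List (ℕ × List ℕ) := [
  (30, [15, 53, 58, 83, 92, 102, 105, 150, 153, 165, 170, 195, 204, 240]),
  (45, [29, 46, 51, 71, 90, 105, 116, 150, 153, 165, 170, 195, 204, 240]),
  (51, [27, 39, 60, 78, 85, 105, 114, 150, 153, 165, 170, 195, 204, 240]),
  (75, [23, 43, 60, 77, 90, 102, 113, 150, 153, 165, 170, 195, 204, 240]),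
  (85, [30, 45, 51, 75, 85, 102, 120, 150, 153, 165, 170, 195, 204, 240]),
  (102, [15, 54, 57, 85, 90, 99, 108, 150, 153, 165, 170, 195, 204, 240]),
  (120, [15, 51, 60, 86, 89, 101, 106, 150, 153, 165, 170, 195, 204, 240]),
  (390, [15, 54, 57, 85, 90, 102, 105, 147, 156, 165, 170, 195, 204, 240]),
  (408, [15, 51, 60, 86, 89, 102, 105, 149, 154, 165, 170, 195, 204, 240]),
  (645, [30, 45, 51, 85, 90, 102, 105, 135, 153, 170, 180, 195, 204, 240]),
  (680, [15, 51, 60, 86, 90, 101, 105, 149, 153, 166, 170, 195, 204, 240]),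
  (771, [27, 39, 60, 85, 90, 102, 105, 141, 150, 170, 177, 195, 204, 240]),
  (840, [15, 51, 60, 89, 90, 101, 102, 149, 150, 169, 170, 195, 204, 240]),
  (1155, [23, 43, 60, 85, 90, 102, 105, 142, 153, 165, 178, 195, 204, 240]),
  (1200, [15, 51, 60, 85, 86, 105, 106, 153, 154, 165, 166, 195, 204, 240]),
  (1285, [29, 46, 51, 85, 90, 102, 105, 139, 150, 165, 184, 195, 204, 240]),
  (1360, [15, 51, 60, 85, 89, 102, 106, 150, 154, 165, 169, 195, 204, 240]),
  (1542, [15, 53, 58, 85, 90, 102, 105, 150, 153, 163, 172, 195, 204, 240]),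
  (1632, [15, 51, 60, 85, 90, 101, 106, 150, 153, 166, 169, 195, 204, 240]),
  (1920, [15, 51, 60, 85, 90, 102, 105, 149, 154, 166, 169, 195, 204, 240]),
  (2193, [30, 51, 60, 75, 85, 102, 105, 135, 153, 165, 170, 204, 210, 240]),
  (2210, [15, 54, 60, 85, 90, 99, 105, 147, 153, 165, 170, 198, 204, 240]),
  (2313, [29, 51, 60, 71, 90, 102, 105, 139, 150, 165, 170, 204, 209, 240]),
  (2370, [15, 57, 60, 85, 90, 99, 102, 147, 150, 165, 170, 201, 204, 240]),
  (2570, [15, 53, 60, 83, 90, 102, 105, 150, 153, 163, 170, 197, 204, 240]),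
  (2625, [45, 51, 60, 75, 85, 90, 102, 135, 150, 153, 170, 204, 225, 240]),
  (3090, [15, 58, 60, 83, 85, 102, 105, 150, 153, 163, 165, 202, 204, 240]),
  (3105, [46, 51, 60, 71, 85, 90, 105, 139, 150, 153, 165, 204, 226, 240]),
  (4233, [23, 51, 60, 77, 90, 102, 105, 142, 153, 165, 170, 195, 212, 240]),
  (4260, [15, 51, 54, 85, 90, 105, 108, 153, 156, 165, 170, 195, 198, 240]),
  (4369, [27, 51, 60, 78, 85, 102, 105, 141, 150, 165, 170, 195, 216, 240]),
  (4420, [15, 51, 57, 85, 90, 102, 108, 150, 156, 165, 170, 195, 201, 240]),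
  (4620, [15, 51, 53, 90, 92, 102, 105, 150, 153, 170, 172, 195, 197, 240]),
  (4641, [39, 51, 60, 78, 85, 90, 105, 141, 150, 153, 170, 195, 228, 240]),
  (5140, [15, 51, 58, 85, 92, 102, 105, 150, 153, 165, 172, 195, 202, 240]),
  (5185, [43, 51, 60, 77, 85, 90, 102, 142, 150, 153, 165, 195, 232, 240]),
  (6168, [15, 51, 60, 83, 92, 102, 105, 150, 153, 165, 170, 197, 202, 240]),
  (6240, [15, 51, 60, 85, 90, 99, 108, 150, 153, 165, 170, 198, 201, 240]),
  (6528, [15, 51, 60, 85, 90, 102, 105, 147, 156, 165, 170, 198, 201, 240]),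
  (7680, [15, 51, 60, 85, 90, 102, 105, 150, 153, 163, 172, 197, 202, 240]),
  (8330, [15, 23, 60, 90, 102, 105, 113, 153, 165, 170, 178, 195, 204, 212]),
  (8340, [15, 30, 51, 85, 102, 105, 120, 153, 165, 170, 180, 195, 204, 210]),
  (8460, [15, 29, 51, 90, 102, 105, 116, 150, 165, 170, 184, 195, 204, 209]),
  (8466, [15, 27, 60, 85, 102, 105, 114, 150, 165, 170, 177, 195, 204, 216]),
  (8738, [15, 39, 60, 85, 90, 105, 114, 150, 153, 170, 177, 195, 204, 228]),
  (8772, [15, 45, 51, 85, 90, 102, 120, 150, 153, 170, 180, 195, 204, 225]),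
  (9252, [15, 46, 51, 85, 90, 105, 116, 150, 153, 165, 184, 195, 204, 226]),
  (9282, [15, 43, 60, 85, 90, 102, 113, 150, 153, 165, 178, 195, 204, 232]),
  (10280, [15, 51, 60, 71, 90, 105, 116, 150, 153, 165, 170, 204, 209, 226]),
  (10320, [15, 51, 60, 75, 85, 102, 120, 150, 153, 165, 170, 204, 210, 225]),
  (10880, [15, 51, 60, 85, 90, 102, 105, 135, 153, 170, 180, 204, 210, 225]),
  (11520, [15, 51, 60, 85, 90, 102, 105, 139, 150, 165, 184, 204, 209, 226]),
  (12336, [15, 51, 60, 78, 85, 105, 114, 150, 153, 165, 170, 195, 216, 228]),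
  (12360, [15, 51, 60, 77, 90, 102, 113, 150, 153, 165, 170, 195, 212, 232]),
  (13056, [15, 51, 60, 85, 90, 102, 105, 141, 150, 170, 177, 195, 216, 228]),
  (13440, [15, 51, 60, 85, 90, 102, 105, 142, 153, 165, 178, 195, 212, 232])]

/-- The minimal defining sets, as masks of sets of planes. -/
def minData : List ℕ := [
  1008, 1512, 1752, 1848, 2532, 2772, 3372, 3612, 4578, 4914, 5322, 5658, 6342, 6438, 6678, 7182, 8913, 9009, 9417, 9513, 10437, 10533, 10773, 11277, 12483, 12579, 12819, 13323, 955, 989, 1006, 1469, 1499, 1526, 1726, 1771, 1781, 1886, 1901, 1907, 2479, 2519, 2554, 2719, 2791, 2809, 3359, 3431, 3449, 3631, 3671, 3706, 3994, 4009, 4049, 4066, 4535, 4559, 4604, 4895, 4967, 4985, 5279, 5351, 5369, 5687, 5711, 5756, 6044, 6065, 6089, 6116, 6334, 6379, 6389, 6494, 6509, 6515, 6715, 6749, 6766, 7054, 7075, 7109, 7144, 7229, 7259, 7286, 7574, 7589, 7619, 7664, 7819, 7829, 7846, 7864, 7949, 7955, 8006, 8024, 8887, 8911, 8956, 9007, 9047, 9082, 9391, 9431, 9466, 9527, 9551, 9596, 10156, 10162, 10186, 10196, 10429, 10459, 10486, 10555,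 10589, 10606, 10846, 10861, 10867, 11149, 11155, 11206, 11224, 11326, 11371, 11381, 11659, 11669, 11686, 11704, 11926, 11941, 11971, 12016, 12046, 12067, 12101, 12136, 12475, 12509, 12526, 12605, 12635, 12662, 12862, 12907, 12917, 13195, 13205, 13222, 13240, 13406, 13421, 13427, 13709, 13715, 13766, 13784, 13966, 13987, 14021, 14056, 14102, 14117, 14147, 14192, 14764, 14770, 14794, 14804, 15004, 15025, 15049, 15076, 15130, 15145, 15185, 15202, 15514, 15529, 15569, 15586, 15644, 15665, 15689, 15716, 15916, 15922, 15946, 15956]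

lemma chkDef_all : ∀ M ∈ minData, chkDef M = true := by decide +kernel

/-- The check of an entry of `altData`. -/
def chkAlt (t : ℕ × List ℕ) : Bool :=
  chkDesign t.2 && (!(Dm.all (fun m => t.2.contains m)) &&
    (List.range 14).all (fun i => t.1.testBit i || t.2.contains (Dm.getD i 0)))

lemma chkAlt_all : ∀ t ∈ altData, chkAlt t = true := by decide +kernel

/-- The first components of `altData`. -/
def altMasks : List ℕ :=
  [30, 45, 51, 75, 85, 102, 120, 390, 408, 645, 680, 771, 840, 1155, 1200, 1285, 1360, 1542,
   1632, 1920, 2193, 2210, 2313, 2370, 2570, 2625, 3090, 3105, 4233, 4260, 4369, 4420, 4620,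
   4641, 5140, 5185, 6168, 6240, 6528, 7680, 8330, 8340, 8460, 8466, 8738, 8772, 9252, 9282,
   10280, 10320, 10880, 11520, 12336, 12360, 13056, 13440]

lemma altMasks_eq : altMasks = altData.map Prod.fst := by decide +kernel

/-- Drop the masks that have a binary digit one in common with `b`. -/
def dropBit (b : ℕ) : List ℕ → List ℕ
  | [] => []
  | t :: l => match Nat.beq (Nat.land t b) 0 with
    | true => t :: dropBit b l
    | false => dropBit b l

/-- Clear the binary digits of `b` in each mask. -/
def clearBit (b : ℕ) : List ℕ → List ℕ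
  | [] => []
  | t :: l => Nat.xor t (Nat.land t b) :: clearBit b l

/-- Some entry is zero. -/
def hasZero : List ℕ → Bool
  | [] => false
  | t :: l => Nat.beq t 0 || hasZero l

/-- Case distinction on the planes `0, …, n - 1`. -/
def cover : ℕ → List ℕ → List ℕ → Bool
  | 0, _, _ => false
  | n + 1, ts, Ms =>
    (hasZero (clearBit (Nat.pow 2 n) Ms) ||
      cover n (dropBit (Nat.pow 2 n) ts) (clearBit (Nat.pow 2 n) Ms)) &&
    (hasZero (clearBit (Nat.pow 2 n) ts) ||
      cover n (clearBit (Nat.pow 2 n) ts) (dropBit (Nat.pow 2 n) Ms))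

lemma cover_true : cover 14 altMasks minData = true := by decide +kernel

lemma mem_dropBit {b t : ℕ} {l : List ℕ} (h : t ∈ dropBit b l) : t ∈ l := by
  induction l with
  | nil => exact h
  | cons a l ih =>
    rw [dropBit] at h
    split at h
    · rcases List.mem_cons.1 h with rfl | h
      · simp
      · exact List.mem_cons_of_mem _ (ih h)
    · exact List.mem_cons_of_mem _ (ih h)

lemma mem_clearBit {b t : ℕ} {l : List ℕ} (h : t ∈ clearBit b l) :
    ∃ t' ∈ l, t = Nat.xor t' (Nat.land t' b) := by
  induction l with
  | nil => simp [clearBit] at h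
  | cons a l ih =>
    rw [clearBit] at h
    rcases List.mem_cons.1 h with rfl | h
    · exact ⟨a, by simp, rfl⟩
    · obtain ⟨t', ht', h'⟩ := ih h
      exact ⟨t', by simp [ht'], h'⟩

lemma mem_hasZero {l : List ℕ} (h : hasZero l = true) : 0 ∈ l := by
  induction l with
  | nil => simp [hasZero] at h
  | cons a l ih =>
    rw [hasZero, Bool.or_eq_true] at h
    rcases h with h | h
    · rw [Nat.eq_of_beq_eq_true h]
      simp
    · exact List.mem_cons_of_mem _ (ih h)

lemma testBit_clear {t n i : ℕ} (h : t.testBit i = true) (hi : i ≠ n) :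
    (Nat.xor t (Nat.land t (Nat.pow 2 n))).testBit i = true := by
  change (t ^^^ (t &&& 2 ^ n)).testBit i = true
  rw [Nat.testBit_xor, Nat.testBit_and, Nat.testBit_two_pow]
  simp [h, hi.symm]

lemma all_of_clear {g : ℕ → Bool} {v : Bool} {n t' : ℕ} (hg : g n = v)
    (h : ∀ i, (Nat.xor t' (Nat.land t' (Nat.pow 2 n))).testBit i = true → g i = v) :
    ∀ i, t'.testBit i = true → g i = v := by
  intro i hi
  by_cases hin : i = n
  · rw [hin]; exact hg
  · exact h i (testBit_clear hi hin)

lemma cover_sound {g : ℕ → Bool} (n : ℕ) : ∀ {ts Ms : List ℕ}, cover n ts Ms = true →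
    (∃ t ∈ ts, ∀ i, t.testBit i = true → g i = false) ∨
      ∃ M ∈ Ms, ∀ i, M.testBit i = true → g i = true := by
  induction n with
  | zero => intro ts Ms h; exact absurd h (by simp [cover])
  | succ n ih =>
    intro ts Ms h
    rw [cover, Bool.and_eq_true, Bool.or_eq_true, Bool.or_eq_true] at h
    obtain ⟨h1, h2⟩ := h
    have key : ∀ (v : Bool) (l : List ℕ), g n = v →
        (∃ t ∈ clearBit (Nat.pow 2 n) l, ∀ i, t.testBit i = true → g i = v) →
        ∃ t ∈ l, ∀ i, t.testBit i = true → g i = v := by
      rintro v l hg ⟨t, ht, h⟩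
      obtain ⟨t', ht', rfl⟩ := mem_clearBit ht
      exact ⟨t', ht', all_of_clear hg h⟩
    have key0 : ∀ (v : Bool) (l : List ℕ), g n = v → hasZero (clearBit (Nat.pow 2 n) l) = true →
        ∃ t ∈ l, ∀ i, t.testBit i = true → g i = v := by
      intro v l hg h0
      refine key v l hg ⟨0, mem_hasZero h0, ?_⟩
      intro i hi
      simp at hi
    cases hg : g n
    · rcases h2 with h2 | h2
      · exact Or.inl (key0 false ts hg h2)
      · rcases ih h2 with h3 | ⟨M, hM, h3⟩
        · exact Or.inl (key false ts hg h3)
        · exact Or.inr ⟨M, mem_dropBit hM, h3⟩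
    · rcases h1 with h1 | h1
      · exact Or.inr (key0 true Ms hg h1)
      · rcases ih h1 with ⟨t, ht, h3⟩ | h3
        · exact Or.inl ⟨t, mem_dropBit ht, h3⟩
        · exact Or.inr (key true Ms hg h3)

lemma Dm_index : ∀ m ∈ Dm, ∃ i < 14, Dm.getD i 0 = m := by decide +kernel

lemma dichotomy {S : Finset (Finset (Fin 8))} (hS : S ⊆ planes) :
    (¬ IsDefining 2 8 4 3 planes S) ∨ ∃ M ∈ minData, ofList (sel M) ⊆ S := by
  have h := cover_sound (g := fun i => mem S (Dm.getD i 0)) 14 cover_true
  rcases h with ⟨t', ht', h⟩ | ⟨M, hM, h⟩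
  · left
    rw [altMasks_eq, List.mem_map] at ht'
    obtain ⟨t, ht, rfl⟩ := ht'
    intro hdef
    have hc := chkAlt_all t ht
    simp only [chkAlt, Bool.and_eq_true] at hc
    obtain ⟨hc1, hc2, hc3⟩ := hc
    have hsub : S ⊆ ofList t.2 := by
      intro b hb
      have hb' := hS hb
      rw [planes_eq'] at hb'
      obtain ⟨m, hm, rfl⟩ := mem_ofList.1 hb'
      obtain ⟨i, hi, rfl⟩ := Dm_index m hm
      have h3 := (List.all_eq_true.1 hc3) i (List.mem_range.2 hi)
      rw [Bool.or_eq_true] at h3
      rcases h3 with h3 | h3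
      · have h4 := h i h3
        simp only [mem, decide_eq_false_iff_not] at h4
        exact absurd hb h4
      · exact mem_ofList.2 ⟨_, by simpa using h3, rfl⟩
    have heq := hdef.2 _ (isDesign_of_chk hc1) hsub
    have : (Dm.all (fun m => t.2.contains m)) = true := by
      rw [List.all_eq_true]
      intro m hm
      have hm1 : toSet m ∈ planes := by
        rw [planes_eq']
        exact mem_ofList.2 ⟨m, hm, rfl⟩
      rw [← heq] at hm1
      obtain ⟨m', hm', he⟩ := mem_ofList.1 hm1
      have hlt : m' < 256 := by
        simp only [chkDesign, Bool.and_eq_true, List.all_eq_true] at hc1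
        exact blocks_lt _ (by simpa using hc1.1.1 m' hm')
      have := toSet_inj hlt (blocks_lt _ (Dm_blocks m hm)) he
      subst this
      simpa using hm'
    rw [this] at hc2
    exact absurd hc2 (by simp)
  · right
    refine ⟨M, hM, ?_⟩
    intro b hb
    obtain ⟨m, hm, rfl⟩ := mem_ofList.1 hb
    rw [sel, List.mem_map] at hm
    obtain ⟨i, hi, rfl⟩ := hm
    have := h i (by simpa using (List.mem_filter.1 hi).2)
    simpa [mem] using this

lemma sel_nodup : ∀ M ∈ minData, (sel M).Nodup := by decide +kernel

lemma sel_length : ∀ M ∈ minData, (sel M).length = 6 ∨ (sel M).length = 8 := by decide +kernel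

lemma card_ofList_sel {M : ℕ} (hM : M ∈ minData) : (ofList (sel M)).card = (sel M).length := by
  rw [ofList, List.toFinset_card_of_nodup, List.length_map]
  refine List.Nodup.map_on ?_ (sel_nodup M hM)
  intro a ha b hb h
  exact toSet_inj (blocks_lt _ (Dm_blocks _ (sel_blocks _ _ ha)))
    (blocks_lt _ (Dm_blocks _ (sel_blocks _ _ hb))) h

lemma mem6 : 1008 ∈ minData ∧ (sel 1008).length = 6 := by decide +kernel

lemma mem8 : 955 ∈ minData ∧ (sel 955).length = 8 := by decide +kernel

lemma anti8 : ∀ M ∈ minData, (sel M).length = 6 → ∃ m ∈ sel M, m ∉ sel 955 := by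
  decide +kernel

/-- The spectrum of the 2-(8,4,3) design of the planes of `AG(3,2)` is `{6, 8}`. -/
theorem spec_planes : Spec 2 8 4 3 planes = {6, 8} := by
  ext n
  simp only [Spec, Set.mem_ofPred_eq, Set.mem_insert_iff, Set.mem_singleton_iff]
  constructor
  · rintro ⟨S, ⟨hdef, hmin⟩, rfl⟩
    rcases dichotomy hdef.1 with h | ⟨M, hM, hsub⟩
    · exact absurd hdef h
    · have heq : ofList (sel M) = S := by
        by_contra hne
        exact hmin _ (Finset.ssubset_iff_subset_ne.2 ⟨hsub, hne⟩)
          (defining_of_chk (chkDef_all M hM))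
      rw [← heq, card_ofList_sel hM]
      exact sel_length M hM
  · rintro (rfl | rfl)
    · refine ⟨ofList (sel 1008), ⟨defining_of_chk (chkDef_all _ mem6.1), ?_⟩, ?_⟩
      · intro S' hS' hdef
        rcases dichotomy hdef.1 with h | ⟨M, hM, hsub⟩
        · exact h hdef
        · have h1 := Finset.card_lt_card hS'
          have h2 := Finset.card_le_card hsub
          rw [card_ofList_sel mem6.1, mem6.2] at h1
          rw [card_ofList_sel hM] at h2
          rcases sel_length M hM with h3 | h3 <;> omega
      · rw [card_ofList_sel mem6.1, mem6.2]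
    · refine ⟨ofList (sel 955), ⟨defining_of_chk (chkDef_all _ mem8.1), ?_⟩, ?_⟩
      · intro S' hS' hdef
        rcases dichotomy hdef.1 with h | ⟨M, hM, hsub⟩
        · exact h hdef
        · have h1 := Finset.card_lt_card hS'
          have h2 := Finset.card_le_card hsub
          rw [card_ofList_sel mem8.1, mem8.2] at h1
          rw [card_ofList_sel hM] at h2
          rcases sel_length M hM with h3 | h3
          · obtain ⟨m, hm, hm'⟩ := anti8 M hM h3
            have h4 : toSet m ∈ ofList (sel 955) :=
              hS'.1 (hsub (mem_ofList.2 ⟨m, hm, rfl⟩))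
            obtain ⟨m', hm1, he⟩ := mem_ofList.1 h4
            have := toSet_inj (blocks_lt _ (Dm_blocks _ (sel_blocks _ _ hm1)))
              (blocks_lt _ (Dm_blocks _ (sel_blocks _ _ hm))) he
            subst this
            exact hm' hm1
          · omega
      · rw [card_ofList_sel mem8.1, mem8.2]

/-- The planes form a 2-(8,4,3) design. -/
theorem isDesign_planes : IsDesign 2 8 4 3 planes := by
  rw [planes_eq']
  exact isDesign_of_chk (by decide +kernel)

end Pool.Agent.N472.Hole
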